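import Pool.Agent.Helper18.PB2.Goals

/-!
# Packet NUL (helper18, property B)
-/

set_option autoImplicit false

open MeasureTheory Measure

namespace Pool.Agent.Helper62.PB2

open Pool.Agent.Helper18.PB2

theorem null_coord {n : ℕ} {K : Set ℝ} (hK : volume K = 0) (i : Fin n) :
    volume {x : Eu n | x i ∈ K} = 0 := by
  have h1 : volume (Function.eval i ⁻¹' K : Set (Fin n → ℝ)) = 0 :=
    Measure.pi_eval_preimage_null _ hK
  have h3 := (PiLp.volume_preserving_ofLp (Fin n))
  exact h3.quasiMeasurePreserving.preimage_null h1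

theorem nul : HNull := by
  intro n K α _ hK0 hα hne
  let e : Fin n → Eu n := fun i => EuclideanSpace.single i 1
  let f : Fin n → Eu n → Eu n := fun i x => x - (inner ℝ (α (x i)) x / α (x i) i) • e i
  let S : Fin n → Set (Eu n) := fun i => {x | x i ∈ K ∧ α (x i) i ≠ 0}
  have hS : ∀ i, volume (S i) = 0 := fun i =>
    measure_mono_null (fun x hx => hx.1) (null_coord hK0 i)
  have hd : ∀ i, DifferentiableOn ℝ (f i) (S i) := by
    intro i x hx
    have h1 : Differentiable ℝ (fun x : Eu n => x i) :=
      (EuclideanSpace.proj i : Eu n →L[ℝ] ℝ).differentiable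
    have h2 : Differentiable ℝ (fun x : Eu n => α (x i)) :=
      (hα.differentiable (by norm_num)).comp h1
    have h3 : Differentiable ℝ (fun x : Eu n => α (x i) i) :=
      (EuclideanSpace.proj i : Eu n →L[ℝ] ℝ).differentiable.comp h2
    have h4 : Differentiable ℝ (fun x : Eu n => inner ℝ (α (x i)) x) := h2.inner ℝ differentiable_id
    have h5 : DifferentiableAt ℝ (fun x : Eu n => inner ℝ (α (x i)) x / α (x i) i) x := by
      simp only [div_eq_mul_inv]
      exact (h4 x).mul ((h3 x).inv hx.2)
    exact (differentiableAt_id.sub (h5.smul_const (e i))).differentiableWithinAt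
  have him : ∀ i, volume (f i '' S i) = 0 := fun i =>
    addHaar_image_eq_zero_of_differentiableOn_of_addHaar_eq_zero volume (hd i) (hS i)
  refine measure_mono_null ?_ (measure_iUnion_null him)
  rintro x ⟨t, ht, hx⟩
  have h0 : ∃ i, α t i ≠ 0 := by
    by_contra h
    push Not at h
    exact hne t ht (PiLp.ext h)
  obtain ⟨i, hi⟩ := h0
  refine Set.mem_iUnion.2 ⟨i, x + (t - x i) • e i, ?_, ?_⟩
  · have : (x + (t - x i) • e i) i = t := by simp [e]
    change _ ∧ _
    rw [this]
    exact ⟨ht, hi⟩
  · have h1 : (x + (t - x i) • e i) i = t := by simp [e]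
    have h2 : inner ℝ (α t) (x + (t - x i) • e i) = (t - x i) * α t i := by
      rw [inner_add_right, hx, inner_smul_right, zero_add]
      congr 1
      rw [EuclideanSpace.inner_single_right]
      simp
    change (x + (t - x i) • e i) - (inner ℝ (α ((x + (t - x i) • e i) i)) (x + (t - x i) • e i) /
      α ((x + (t - x i) • e i) i) i) • e i = x
    rw [h1, h2, mul_div_cancel_right₀ _ hi]
    abel

end Pool.Agent.Helper62.PB2
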